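import Mathlib
import Pool.Agent.MP_0a9cf0_an.GridAll

set_option autoImplicit false

namespace Pool.Agent.Results.MP_0a9cf0_an.AllHighDimensions

open Real Complex MeasureTheory Filter Set Topology

open Pool.Agent.MP_0a9cf0_an

/-- The Wigner distribution of a Gaussian superposition is integrable on the phase space. -/
theorem integrable_wigner_super {E : Type*} [NormedAddCommGroup E] [InnerProductSpace ℝ E]
    [FiniteDimensional ℝ E] [MeasurableSpace E] [BorelSpace E]
    {ι : Type*} [Fintype ι] (c : ι → ℝ) (a : ι → E) :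
    Integrable (fun p : E × E => ∫ y : E,
              Complex.exp (-(2 * (Real.pi : ℂ) * Complex.I * ((inner ℝ y p.2 : ℝ) : ℂ)))
                * superS c a (p.1 + (1/2 : ℝ) • y)
                * starRingEnd ℂ (superS c a (p.1 - (1/2 : ℝ) • y))) := by
  have h1 : ∀ (p : E × E) (y : E),
      Complex.exp (-(2 * (Real.pi : ℂ) * Complex.I * ((inner ℝ y p.2 : ℝ) : ℂ)))
                * superS c a (p.1 + (1/2 : ℝ) • y)
                * starRingEnd ℂ (superS c a (p.1 - (1/2 : ℝ) • y)) =
      ∑ j, ∑ k, ((c j * c k : ℝ) : ℂ) * term (a j) (a k) p y := by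
    intro p y
    rw [superS_apply, superS_apply, map_sum, mul_assoc, Finset.sum_mul_sum, Finset.mul_sum]
    refine Finset.sum_congr rfl fun j _ => ?_
    rw [Finset.mul_sum]
    refine Finset.sum_congr rfl fun k _ => ?_
    unfold term
    rw [map_mul, Complex.conj_ofReal]
    push_cast
    ring
  simp_rw [h1]
  have h2 : ∀ p : E × E, ∫ y, ∑ j, ∑ k, ((c j * c k : ℝ) : ℂ) * term (a j) (a k) p y =
      ∑ j, ∑ k, ((c j * c k : ℝ) : ℂ) * ∫ y, term (a j) (a k) p y := by
    intro p
    rw [integral_finsetSum _ fun j _ => integrable_finsetSum _ fun k _ =>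
      (integrable_term (a j) (a k) p).const_mul _]
    refine Finset.sum_congr rfl fun j _ => ?_
    rw [integral_finsetSum _ fun k _ => (integrable_term (a j) (a k) p).const_mul _]
    refine Finset.sum_congr rfl fun k _ => ?_
    rw [integral_const_mul]
  simp_rw [h2]
  exact integrable_finsetSum _ fun j _ => integrable_finsetSum _ fun k _ =>
      (integrable_wigner (a j) (a k)).const_mul _

/-- For EVERY dimension `d ≥ 10` and every constant `C` there are a Schwartz function `u` on `ℝ^d` and
a compact convex set `K` in phase space such that the integral over `K` of the Wigner distribution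
of `u` exceeds `C ‖u‖²`; moreover the Wigner distribution of `u` is integrable on phase space. -/
theorem result (d : ℕ) (hd : 10 ≤ d) (C : ℝ) :
    ∃ (u : SchwartzMap (EuclideanSpace ℝ (Fin d)) ℂ)
      (K : Set (EuclideanSpace ℝ (Fin d) × EuclideanSpace ℝ (Fin d))),
      Convex ℝ K ∧ IsCompact K ∧
      Integrable (fun p : EuclideanSpace ℝ (Fin d) × EuclideanSpace ℝ (Fin d) =>
        ∫ y : EuclideanSpace ℝ (Fin d),
              Complex.exp (-(2 * (Real.pi : ℂ) * Complex.I * ((inner ℝ y p.2 : ℝ) : ℂ)))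
                * u (p.1 + (1/2 : ℝ) • y)
                * starRingEnd ℂ (u (p.1 - (1/2 : ℝ) • y))) ∧
      C * ∫ x : EuclideanSpace ℝ (Fin d), ‖u x‖ ^ 2 <
        (∫ p in K, ∫ y : EuclideanSpace ℝ (Fin d),
              Complex.exp (-(2 * (Real.pi : ℂ) * Complex.I * ((inner ℝ y p.2 : ℝ) : ℂ)))
                * u (p.1 + (1/2 : ℝ) • y)
                * starRingEnd ℂ (u (p.1 - (1/2 : ℝ) • y))).re := by
  obtain ⟨n, rfl⟩ : ∃ n, d = n + 1 := ⟨d - 1, by omega⟩
  obtain ⟨ι, _, c, a, A, hAc, hAcl, hlt⟩ := GridAll.exists_large n (by omega) C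
  have hint := integrable_wigner_super c a
  set W : EuclideanSpace ℝ (Fin (n + 1)) × EuclideanSpace ℝ (Fin (n + 1)) → ℂ :=
    fun p => ∫ y : EuclideanSpace ℝ (Fin (n + 1)),
              Complex.exp (-(2 * (Real.pi : ℂ) * Complex.I * ((inner ℝ y p.2 : ℝ) : ℂ)))
                * superS c a (p.1 + (1/2 : ℝ) • y)
                * starRingEnd ℂ (superS c a (p.1 - (1/2 : ℝ) • y)) with hW
  have hunion : (A ×ˢ A) = ⋃ R : ℕ, ((A ×ˢ A) ∩ Metric.closedBall 0 (R : ℝ)) := by
    rw [← Set.inter_iUnion, Metric.iUnion_closedBall_nat, Set.inter_univ]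
  have hAm : MeasurableSet (A ×ˢ A) := (hAcl.prod hAcl).measurableSet
  have hmono : Monotone (fun R : ℕ => (A ×ˢ A) ∩ Metric.closedBall
      (0 : EuclideanSpace ℝ (Fin (n + 1)) × EuclideanSpace ℝ (Fin (n + 1))) (R : ℝ)) := by
    intro R S h
    exact Set.inter_subset_inter_right _ (Metric.closedBall_subset_closedBall (by exact_mod_cast h))
  have hlim : Tendsto (fun R : ℕ => ∫ p in ((A ×ˢ A) ∩ Metric.closedBall 0 (R : ℝ)), W p) atTop
      (𝓝 (∫ p in A ×ˢ A, W p)) := by
    have h1 := tendsto_setIntegral_of_monotone (μ := volume) (f := W)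
      (fun R : ℕ => hAm.inter (Metric.isClosed_closedBall.measurableSet (α := _))) hmono
      (by rw [← hunion]; exact hint.integrableOn)
    rwa [← hunion] at h1
  have hlim2 := (Complex.continuous_re.tendsto _).comp hlim
  have hev := hlim2.eventually (lt_mem_nhds hlt)
  obtain ⟨R, hR⟩ := hev.exists
  refine ⟨superS c a, (A ×ˢ A) ∩ Metric.closedBall 0 (R : ℝ), ?_, ?_, hint, hR⟩
  · exact (hAc.prod hAc).inter (convex_closedBall _ _)
  · exact (isCompact_closedBall _ _).inter_left (hAcl.prod hAcl)

end Pool.Agent.Results.MP_0a9cf0_an.AllHighDimensions
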